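import Pool.Agent.Q74.BT.Stm4
import Pool.Agent.Q92.BT.CwNet

/-! # Project BT, part 4, JOB SegW: walkers from a net and from the full segment, arbitrary functions of the set -/

set_option autoImplicit false

namespace Pool.Agent.Q95.BT

open Finset
open Pool.Agent.Q74.KP (pq)
open Pool.Agent.Q74.SF (CG CG_succ CG_mono CG_const CG_add CG_mul CG_sub)
open Pool.Agent.Q74.BT (cF CG_cF S_CwMean S_SegW)
open Pool.Agent.Q177.SF (comp cmono)
open Pool.Agent.Q92.BT (pq_one_le fb fb_nonneg fb_zero_sq pq_lin pq_time tel CG_abs_le)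

/-- the number of places -/
noncomputable def NN (A : Finset ℤ) : ℝ := (A.card : ℝ)

theorem cF_time (F : Finset ℤ → ℝ) (r s : ℕ) : ∀ A, cF F (r + s) A = cF (cF F r) s A := by
  induction s with
  | zero => intro A; rfl
  | succ s ih =>
    intro A
    show (∑ B ∈ A.powerset, cF F (r + s) (A \ B ∪ B.image (· + 1))) / 2 ^ A.card =
      (∑ B ∈ A.powerset, cF (cF F r) s (A \ B ∪ B.image (· + 1))) / 2 ^ A.card
    congr 1
    exact sum_congr rfl fun B _ => ih _

/-! ### monotone walkers -/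

theorem CG_mono_mono {k : ℕ} {F G : (Fin k → ℤ) → ℝ} (h : ∀ z, Monotone z → F z ≤ G z) (t : ℕ)
    (a : Fin k → ℤ) (ha : Monotone a) : CG F t a ≤ CG G t a := by
  classical
  have h1 : CG F t a = CG (fun z => if Monotone z then F z else G z) t a :=
    cmono k F _ (fun z hz => by rw [if_pos hz]) t a ha
  rw [h1]
  apply CG_mono
  intro z
  by_cases hz : Monotone z
  · rw [if_pos hz]; exact h z hz
  · rw [if_neg hz]

theorem CG_abs_mono {k : ℕ} {F G : (Fin k → ℤ) → ℝ} (h : ∀ z, Monotone z → |F z| ≤ G z) (t : ℕ)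
    (a : Fin k → ℤ) (ha : Monotone a) : |CG F t a| ≤ CG G t a := by
  rw [abs_le]
  constructor
  · have h1 := CG_mono_mono (F := fun z => (-1) * G z) (G := F) (fun z hz => by
      have := (abs_le.1 (h z hz)).1
      linarith) t a ha
    rw [CG_mul] at h1
    linarith
  · exact CG_mono_mono (fun z hz => (abs_le.1 (h z hz)).2) t a ha

/-! ### subsets -/

theorem sub_set {F : Finset ℤ → ℝ} (hF : ∀ A, |F A| ≤ 1) (r : ℕ) {A B : Finset ℤ} (hAB : A ⊆ B) :
    |cF F r B - cF F r A| ≤ 2 * (cF NN r B - cF NN r A) := by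
  classical
  let b : Fin B.card → ℤ := fun i => (B.equivFin.symm i : ℤ)
  let e : Fin A.card → Fin B.card := fun i => B.equivFin ⟨A.equivFin.symm i, hAB (A.equivFin.symm i).2⟩
  have hb : univ.image b = B := by
    ext x
    rw [mem_image]
    constructor
    · rintro ⟨i, -, rfl⟩
      exact (B.equivFin.symm i).2
    · intro hx
      exact ⟨B.equivFin ⟨x, hx⟩, mem_univ _, by simp [b]⟩
  have he : ∀ i, b (e i) = (A.equivFin.symm i : ℤ) := by
    intro i
    simp [b, e]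
  have ha : univ.image (b ∘ e) = A := by
    ext x
    rw [mem_image]
    constructor
    · rintro ⟨i, -, rfl⟩
      rw [Function.comp_apply, he]
      exact (A.equivFin.symm i).2
    · intro hx
      refine ⟨A.equivFin ⟨x, hx⟩, mem_univ _, ?_⟩
      rw [Function.comp_apply, he]
      simp
  have h1 : ∀ H : Finset ℤ → ℝ, cF H r B = CG (fun z => H (univ.image z)) r b := by
    intro H
    rw [CG_cF, hb]
  have h2 : ∀ H : Finset ℤ → ℝ, cF H r A = CG (fun z => H (univ.image (z ∘ e))) r b := by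
    intro H
    rw [comp B.card A.card e (fun z => H (univ.image z)) r b, CG_cF, ha]
  rw [h1, h2, h1, h2, ← CG_sub, ← CG_sub, ← CG_mul]
  apply CG_abs_le
  intro z
  have hsub : univ.image (z ∘ e) ⊆ univ.image z := by
    intro x hx
    rw [mem_image] at hx ⊢
    obtain ⟨i, -, rfl⟩ := hx
    exact ⟨e i, mem_univ _, rfl⟩
  rcases Nat.eq_or_lt_of_le (card_le_card hsub) with h3 | h3
  · rw [eq_of_subset_of_card_le hsub h3.ge]
    simp
  · have h4 : (((univ.image (z ∘ e)).card + 1 : ℕ) : ℝ) ≤ (univ.image z).card := by exact_mod_cast h3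
    push_cast at h4
    have h5 := abs_sub (F (univ.image z)) (F (univ.image (z ∘ e)))
    have h6 := hF (univ.image z)
    have h7 := hF (univ.image (z ∘ e))
    unfold NN
    linarith

/-! ### means -/

theorem mean_net (h : S_CwMean) {k : ℕ} (r : ℕ) (a : Fin (k + 1) → ℤ) (ha : Monotone a) :
    cF NN r (univ.image a) = 1 + ∑ i : Fin k, pq r (a i.succ - a i.castSucc) := by
  rw [← CG_cF]
  exact h k r a ha

/-- the segment -/
def sgp (p : ℤ) (m : ℕ) : Fin (m + 1) → ℤ := fun i => p + (i : ℕ)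

theorem sgp_mono (p : ℤ) (m : ℕ) : Monotone (sgp p m) := by
  intro i j h
  unfold sgp
  have : (i : ℕ) ≤ (j : ℕ) := h
  omega

theorem sgp_image (p : ℤ) (m : ℕ) : univ.image (sgp p m) = Icc p (p + m) := by
  ext x
  rw [mem_image, mem_Icc]
  constructor
  · rintro ⟨i, -, rfl⟩
    unfold sgp
    have := i.2
    omega
  · rintro ⟨h1, h2⟩
    refine ⟨⟨(x - p).toNat, by omega⟩, mem_univ _, ?_⟩
    unfold sgp
    show p + ((x - p).toNat : ℤ) = x
    omega

theorem mean_seg (h : S_CwMean) (r : ℕ) {p q : ℤ} (hpq : p ≤ q) :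
    cF NN r (Icc p q) = 1 + ((q : ℝ) - p) * pq r 1 := by
  obtain ⟨m, rfl⟩ : ∃ m : ℕ, q = p + m := ⟨(q - p).toNat, by omega⟩
  rw [← sgp_image, mean_net h r (sgp p m) (sgp_mono p m)]
  have h2 : ∀ i : Fin m, pq r (sgp p m i.succ - sgp p m i.castSucc) = pq r 1 := by
    intro i
    congr 1
    unfold sgp
    rw [Fin.val_succ, Fin.val_castSucc]
    push_cast
    ring
  rw [sum_congr rfl (fun i _ => h2 i), sum_const, card_univ, Fintype.card_fin, nsmul_eq_mul]
  push_cast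
  ring

/-! ### changing the endpoints -/

theorem endp (h : S_CwMean) {F : Finset ℤ → ℝ} (hF : ∀ A, |F A| ≤ 1) (r : ℕ) {p q p' q' : ℤ}
    (hpq : p ≤ q) (hpq' : p' ≤ q') :
    |cF F r (Icc p q) - cF F r (Icc p' q')| ≤ 2 * pq r 1 * (|(p : ℝ) - p'| + |(q : ℝ) - q'|) := by
  have hm : min p p' ≤ max q q' := (min_le_left _ _).trans (hpq.trans (le_max_left _ _))
  have h1 : Icc p q ⊆ Icc (min p p') (max q q') := Icc_subset_Icc (min_le_left _ _) (le_max_left _ _)
  have h2 : Icc p' q' ⊆ Icc (min p p') (max q q') := Icc_subset_Icc (min_le_right _ _) (le_max_right _ _)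
  have e1 := sub_set hF r h1
  have e2 := sub_set hF r h2
  rw [mean_seg h r hm, mean_seg h r hpq] at e1
  rw [mean_seg h r hm, mean_seg h r hpq'] at e2
  push_cast at e1 e2
  have e3 : (max (q : ℝ) q' - min (p : ℝ) p' - ((q : ℝ) - p)) + (max (q : ℝ) q' - min (p : ℝ) p' - ((q' : ℝ) - p')) =
      |(p : ℝ) - p'| + |(q : ℝ) - q'| := by
    rcases le_total (p : ℝ) p' with a1 | a1 <;> rcases le_total (q : ℝ) q' with a2 | a2
    · rw [max_eq_right a2, min_eq_left a1, abs_of_nonpos (by linarith), abs_of_nonpos (by linarith)]; ring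
    · rw [max_eq_left a2, min_eq_left a1, abs_of_nonpos (by linarith), abs_of_nonneg (by linarith)]; ring
    · rw [max_eq_right a2, min_eq_right a1, abs_of_nonneg (by linarith), abs_of_nonpos (by linarith)]; ring
    · rw [max_eq_left a2, min_eq_right a1, abs_of_nonneg (by linarith), abs_of_nonneg (by linarith)]; ring
  have e4 := abs_sub_le (cF F r (Icc p q)) (cF F r (Icc (min p p') (max q q'))) (cF F r (Icc p' q'))
  rw [abs_sub_comm (cF F r (Icc p q)) (cF F r (Icc (min p p') (max q q')))] at e4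
  rw [← e3]
  have e5 : 2 * pq r 1 * ((max (q : ℝ) q' - min (p : ℝ) p' - ((q : ℝ) - p)) +
      (max (q : ℝ) q' - min (p : ℝ) p' - ((q' : ℝ) - p'))) =
      2 * (1 + (max (q : ℝ) q' - min (p : ℝ) p') * pq r 1 - (1 + ((q : ℝ) - p) * pq r 1)) +
      2 * (1 + (max (q : ℝ) q' - min (p : ℝ) p') * pq r 1 - (1 + ((q' : ℝ) - p') * pq r 1)) := by ring
  rw [e5]
  linarith

/-! ### one walker -/

theorem one_step (f : (Fin 1 → ℤ) → ℝ) (t : ℕ) (a : Fin 1 → ℤ) :
    CG f (t + 1) a = (CG f t a + CG f t (fun i => a i + 1)) / 2 := by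
  rw [CG_succ]
  have h1 : univ.image a = {a 0} := by
    ext x
    rw [mem_image, mem_singleton]
    constructor
    · rintro ⟨i, -, rfl⟩
      rw [Subsingleton.elim i 0]
    · rintro rfl
      exact ⟨0, mem_univ _, rfl⟩
  have h2 : ({a 0} : Finset ℤ).powerset = {∅, {a 0}} := by
    ext B
    rw [mem_powerset, subset_singleton_iff, mem_insert, mem_singleton]
  rw [h1, card_singleton, pow_one, h2, sum_pair (by
    intro h
    exact absurd h.symm (singleton_ne_empty _))]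
  congr 1
  congr 1
  · congr 1
    funext i
    simp
  · congr 1
    funext i
    rw [Subsingleton.elim i 0, if_pos (mem_singleton_self _)]

theorem lin1 (t : ℕ) : ∀ a : Fin 1 → ℤ, CG (fun z => (z 0 : ℝ)) t a = a 0 + (t : ℝ) / 2 := by
  induction t with
  | zero => intro a; show (a 0 : ℝ) = _; simp
  | succ t ih =>
    intro a
    rw [one_step, ih, ih]
    push_cast
    ring

theorem sq1 (c : ℝ) (t : ℕ) : ∀ a : Fin 1 → ℤ,
    CG (fun z => ((z 0 : ℝ) - c) ^ 2) t a = (a 0 + (t : ℝ) / 2 - c) ^ 2 + t / 4 := by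
  induction t with
  | zero => intro a; show ((a 0 : ℝ) - c) ^ 2 = _; simp
  | succ t ih =>
    intro a
    rw [one_step, ih, ih]
    push_cast
    ring

theorem lin {k : ℕ} (i : Fin k) (t : ℕ) (a : Fin k → ℤ) :
    CG (fun z => (z i : ℝ)) t a = a i + (t : ℝ) / 2 := by
  have h := comp k 1 (fun _ => i) (fun z => (z 0 : ℝ)) t a
  have e : (fun z : Fin k → ℤ => (fun z : Fin 1 → ℤ => (z 0 : ℝ)) (z ∘ fun _ => i)) =
      fun z : Fin k → ℤ => (z i : ℝ) := rfl
  rw [e] at h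
  rw [h, lin1]
  rfl

theorem dev {k : ℕ} (i : Fin k) (c lam : ℝ) (hl : 0 < lam) (t : ℕ) (a : Fin k → ℤ) :
    CG (fun z => |(z i : ℝ) - c|) t a ≤ ((a i + (t : ℝ) / 2 - c) ^ 2 + t / 4) / (2 * lam) + lam / 2 := by
  have h := comp k 1 (fun _ => i) (fun z => ((z 0 : ℝ) - c) ^ 2) t a
  have e : (fun z : Fin k → ℤ => (fun z : Fin 1 → ℤ => ((z 0 : ℝ) - c) ^ 2) (z ∘ fun _ => i)) =
      fun z : Fin k → ℤ => ((z i : ℝ) - c) ^ 2 := rfl
  rw [e, sq1] at h
  have h' : CG (fun z : Fin k → ℤ => ((z i : ℝ) - c) ^ 2) t a = (a i + (t : ℝ) / 2 - c) ^ 2 + t / 4 := h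
  have h1 : CG (fun z : Fin k → ℤ => |(z i : ℝ) - c|) t a ≤
      CG (fun z : Fin k → ℤ => (1 / (2 * lam)) * ((z i : ℝ) - c) ^ 2 + lam / 2) t a := by
    apply CG_mono
    intro z
    have h2 : |(z i : ℝ) - c| ^ 2 = ((z i : ℝ) - c) ^ 2 := sq_abs _
    rw [← h2]
    have h3 : 0 ≤ (|(z i : ℝ) - c| - lam) ^ 2 := sq_nonneg _
    have h4 : 1 / (2 * lam) * |(z i : ℝ) - c| ^ 2 + lam / 2 - |(z i : ℝ) - c| =
        (|(z i : ℝ) - c| - lam) ^ 2 / (2 * lam) := by
      field_simp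
      ring
    have h5 : 0 ≤ (|(z i : ℝ) - c| - lam) ^ 2 / (2 * lam) := by positivity
    show |(z i : ℝ) - c| ≤ 1 / (2 * lam) * |(z i : ℝ) - c| ^ 2 + lam / 2
    linarith
  rw [CG_add, CG_mul, CG_const, h'] at h1
  refine h1.trans (le_of_eq ?_)
  ring

/-! ### the comparison -/

/-- the places reached at time `u` against the full segment between the extreme walkers -/
theorem cmp1 (h : S_CwMean) {F : Finset ℤ → ℝ} (hF : ∀ A, |F A| ≤ 1) (r u m : ℕ) (p : ℤ) :
    |CG (fun z => cF F r (univ.image z)) u (sgp p m) -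
      CG (fun z => cF F r (Icc (z 0) (z (Fin.last m)))) u (sgp p m)| ≤
      2 * ((m : ℝ) * (pq r 1 - pq (r + u) 1)) := by
  rw [← CG_sub]
  have h1 : |CG (fun z => cF F r (univ.image z) - cF F r (Icc (z 0) (z (Fin.last m)))) u (sgp p m)| ≤
      CG (fun z => 2 * ((1 + pq r 1 * ((z (Fin.last m) : ℝ) - z 0)) - cF NN r (univ.image z))) u (sgp p m) := by
    apply CG_abs_mono _ _ _ (sgp_mono p m)
    intro z hz
    have hsub : univ.image z ⊆ Icc (z 0) (z (Fin.last m)) := by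
      intro x hx
      rw [mem_image] at hx
      obtain ⟨i, -, rfl⟩ := hx
      rw [mem_Icc]
      exact ⟨hz (Fin.zero_le i), hz (Fin.le_last i)⟩
    have h2 := sub_set hF r hsub
    rw [mean_seg h r (hz (Fin.zero_le (Fin.last m))), abs_sub_comm] at h2
    refine h2.trans (le_of_eq ?_)
    ring
  refine h1.trans (le_of_eq ?_)
  rw [CG_mul, CG_sub, CG_add, CG_const, CG_mul, CG_sub, lin, lin]
  have h3 : CG (fun z => cF NN r (univ.image z)) u (sgp p m) = 1 + (m : ℝ) * pq (r + u) 1 := by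
    rw [CG_cF, ← cF_time, sgp_image, mean_seg h (r + u) (by omega)]
    push_cast
    ring
  rw [h3]
  unfold sgp
  rw [Fin.val_last, Fin.val_zero]
  push_cast
  ring

/-- the extreme walkers against fixed places -/
theorem cmp2 (h : S_CwMean) {F : Finset ℤ → ℝ} (hF : ∀ A, |F A| ≤ 1) (r u m : ℕ) (p : ℤ)
    {x y : ℤ} (hxy : x ≤ y) :
    |CG (fun z => cF F r (Icc (z 0) (z (Fin.last m)))) u (sgp p m) - cF F r (Icc x y)| ≤
      2 * pq r 1 * (CG (fun z => |(z 0 : ℝ) - x|) u (sgp p m) +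
        CG (fun z => |(z (Fin.last m) : ℝ) - y|) u (sgp p m)) := by
  have e : cF F r (Icc x y) = CG (fun _ : Fin (m + 1) → ℤ => cF F r (Icc x y)) u (sgp p m) :=
    (CG_const _ _ _).symm
  rw [e, ← CG_sub, ← CG_add, ← CG_mul]
  apply CG_abs_mono _ _ _ (sgp_mono p m)
  intro z hz
  exact endp h hF r (hz (Fin.zero_le _)) hxy

/-- the net against the full segment -/
theorem cmp3 (h : S_CwMean) {F : Finset ℤ → ℝ} (hF : ∀ A, |F A| ≤ 1) {r : ℕ} (hr : 0 < r) {k : ℕ}
    (a : Fin (k + 1) → ℤ) (ha : Monotone a) (w : ℝ) (hw : ∀ i : Fin k, (a i.succ : ℝ) - a i.castSucc ≤ w) :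
    |cF F r (univ.image a) - cF F r (Icc (a 0) (a (Fin.last k)))| ≤
      2 * (pq r 1 * (((a (Fin.last k) : ℝ) - a 0) * (w ^ 2 / r))) := by
  have hr' : (0 : ℝ) < r := by exact_mod_cast hr
  have hsub : univ.image a ⊆ Icc (a 0) (a (Fin.last k)) := by
    intro x hx
    rw [mem_image] at hx
    obtain ⟨i, -, rfl⟩ := hx
    rw [mem_Icc]
    exact ⟨ha (Fin.zero_le i), ha (Fin.le_last i)⟩
  have h2 := sub_set hF r hsub
  rw [mean_seg h r (ha (Fin.zero_le (Fin.last k))), mean_net h r a ha, abs_sub_comm] at h2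
  refine h2.trans ?_
  have hgap' : ∀ i : Fin k, ∃ g : ℕ, a i.succ - a i.castSucc = (g : ℤ) := by
    intro i
    have h1 : a i.castSucc ≤ a i.succ := ha (Fin.castSucc_lt_succ (i := i)).le
    exact ⟨(a i.succ - a i.castSucc).toNat, by omega⟩
  choose g hg using hgap'
  have hgr : ∀ i : Fin k, (a i.succ : ℝ) - a i.castSucc = g i := by
    intro i
    have := hg i
    have h3 : ((a i.succ - a i.castSucc : ℤ) : ℝ) = ((g i : ℤ) : ℝ) := by rw [this]
    push_cast at h3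
    exact h3
  have hsum : ∑ i : Fin k, (g i : ℝ) = (a (Fin.last k) : ℝ) - a 0 := by
    rw [← tel k a]
    exact (sum_congr rfl (fun i _ => hgr i)).symm
  have hd1 : ((a (Fin.last k) : ℝ) - a 0) * pq r 1 - ∑ i : Fin k, pq r (a i.succ - a i.castSucc) ≤
      pq r 1 * (((a (Fin.last k) : ℝ) - a 0) * (w ^ 2 / r)) := by
    rw [← hsum, sum_mul, ← sum_sub_distrib, sum_mul, mul_sum]
    apply sum_le_sum
    intro i _
    rw [hg i]
    refine (pq_lin hr (g i)).trans ?_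
    apply mul_le_mul_of_nonneg_left _ (Pool.Agent.Q74.KP.pq_nonneg r 1)
    apply mul_le_mul_of_nonneg_left _ (Nat.cast_nonneg _)
    have h1 := hw i
    rw [hgr i] at h1
    have h3 : (0 : ℝ) ≤ g i := Nat.cast_nonneg _
    apply div_le_div_of_nonneg_right _ hr'.le
    exact pow_le_pow_left₀ h3 h1 2
  linarith

/-- upper bound for `pq r 1` -/
theorem pq_one_bd' {r : ℕ} {x : ℝ} (hx : 0 < x) (h : x ≤ 2 * r) : pq r 1 ≤ 2 / √x := by
  have h1 := fb_zero_sq r
  have h0 := fb_nonneg r 0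
  have h2 : fb r 0 ≤ 1 / √x := by
    rw [le_div_iff₀ (Real.sqrt_pos.2 hx)]
    have h3 : (fb r 0 * √x) ^ 2 ≤ 1 := by
      rw [mul_pow, Real.sq_sqrt hx.le]
      nlinarith [sq_nonneg (fb r 0)]
    have h4 : 0 ≤ fb r 0 * √x := by positivity
    nlinarith
  have h3 := pq_one_le r
  have e : 2 / √x = 2 * (1 / √x) := by ring
  rw [e]
  linarith

/-- JOB SegW -/
theorem segW (h : S_CwMean) : S_SegW := by
  intro M₀ δ ε hM hδ hε
  have hD : 0 < δ * √δ := by positivity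
  set κ : ℝ := min (1 / 2) (min (δ / 2) (ε * (δ * √δ) / (40 * (M₀ + 1)))) with hκ
  have hκ0 : 0 < κ := by positivity
  have hκ1 : κ ≤ 1 / 2 := min_le_left _ _
  have hκ2 : κ ≤ δ / 2 := (min_le_right _ _).trans (min_le_left _ _)
  have hκ3 : κ ≤ ε * (δ * √δ) / (40 * (M₀ + 1)) := (min_le_right _ _).trans (min_le_right _ _)
  refine ⟨κ ^ 2, by positivity, 1, ?_⟩
  intro t ht F hF s u hs1 hs2 hu p q hpq hpqM k a ha ha0 hal hgap
  have ht0 : (0 : ℝ) < t := by exact_mod_cast ht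
  have hst : 0 < √(t : ℝ) := Real.sqrt_pos.2 ht0
  have hst2 : √(t : ℝ) * √t = t := Real.mul_self_sqrt ht0.le
  have hδ1 : δ ≤ 1 := by
    have h1 : (s : ℝ) ≤ t := by exact_mod_cast hs2
    by_contra hc
    push Not at hc
    nlinarith
  have hη1 : κ ^ 2 ≤ κ / 2 := by nlinarith
  have hη2 : κ ^ 2 * t ≤ δ / 4 * t := mul_le_mul_of_nonneg_right (by linarith) ht0.le
  have hus : u ≤ s := by
    have : (u : ℝ) ≤ s := by nlinarith
    exact_mod_cast this
  obtain ⟨r, rfl⟩ : ∃ r, s = r + u := ⟨s - u, by omega⟩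
  rw [Nat.add_sub_cancel]
  push_cast at hs1
  have hr2 : δ / 2 * t ≤ r := by nlinarith
  have hr0 : (0 : ℝ) < r := lt_of_lt_of_le (by positivity) hr2
  have hr0' : 0 < r := by exact_mod_cast hr0
  have hsδ : 0 < √δ := Real.sqrt_pos.2 hδ
  have hsδ2 : √δ * √δ = δ := Real.mul_self_sqrt hδ.le
  have hsδ1 : √δ ≤ 1 := Real.sqrt_le_one.2 hδ1
  set P := pq r 1 with hP
  have hP0 : 0 ≤ P := Pool.Agent.Q74.KP.pq_nonneg r 1
  have hP1 : P * √t ≤ 2 / √δ := by
    have h1 := pq_one_bd' (r := r) (x := δ * t) (by positivity) (by linarith)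
    rw [Real.sqrt_mul hδ.le] at h1
    have h2 : P * √t ≤ 2 / (√δ * √t) * √t := mul_le_mul_of_nonneg_right h1 hst.le
    have h3 : 2 / (√δ * √(t : ℝ)) * √t = 2 / √δ := by field_simp
    linarith
  obtain ⟨m, rfl⟩ : ∃ m : ℕ, q = p + m := ⟨(q - p).toNat, by omega⟩
  push_cast at hpqM hal
  have hm : (m : ℝ) ≤ M₀ * √t := by linarith
  -- the full segment
  have hfull : cF F (r + u) (Icc p (p + m)) = CG (fun z => cF F r (univ.image z)) u (sgp p m) := by
    rw [CG_cF, ← cF_time, sgp_image]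
  have c1 := cmp1 h hF r u m p
  rw [← hfull] at c1
  have c2 := cmp2 h hF r u m p (ha (Fin.zero_le (Fin.last k)))
  have c3 := cmp3 h hF hr0' a ha (κ ^ 2 * √t) hgap
  -- bound 1
  have b1 : 2 * ((m : ℝ) * (P - pq (r + u) 1)) ≤ 8 * M₀ * κ / (δ * √δ) := by
    have h1 := pq_time hr0' u
    have h2 : (u : ℝ) * (P / r) ≤ κ ^ 2 * (2 / δ) * P := by
      have h3 : (u : ℝ) / r ≤ κ ^ 2 * (2 / δ) := by
        rw [div_le_iff₀ hr0]
        have h4 : κ ^ 2 * (2 / δ) * (δ / 2 * t) ≤ κ ^ 2 * (2 / δ) * r :=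
          mul_le_mul_of_nonneg_left hr2 (by positivity)
        have h5 : κ ^ 2 * (2 / δ) * (δ / 2 * t) = κ ^ 2 * t := by field_simp
        linarith
      have h4 : (u : ℝ) * (P / r) = (u : ℝ) / r * P := by ring
      rw [h4]
      exact mul_le_mul_of_nonneg_right h3 hP0
    have h3 : (m : ℝ) * (P - pq (r + u) 1) ≤ (M₀ * √t) * (κ ^ 2 * (2 / δ) * P) := by
      calc (m : ℝ) * (P - pq (r + u) 1) ≤ m * (κ ^ 2 * (2 / δ) * P) :=
            mul_le_mul_of_nonneg_left (h1.trans h2) (Nat.cast_nonneg _)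
        _ ≤ _ := mul_le_mul_of_nonneg_right hm (by positivity)
    have h4 : (M₀ * √t) * (κ ^ 2 * (2 / δ) * P) = M₀ * κ ^ 2 * (2 / δ) * (P * √t) := by ring
    have h5 : M₀ * κ ^ 2 * (2 / δ) * (P * √t) ≤ M₀ * κ * (2 / δ) * (2 / √δ) := by
      apply mul_le_mul _ hP1 (by positivity) (by positivity)
      apply mul_le_mul_of_nonneg_right _ (by positivity)
      exact mul_le_mul_of_nonneg_left (by linarith) hM.le
    have h6 : M₀ * κ * (2 / δ) * (2 / √δ) = 4 * M₀ * κ / (δ * √δ) := by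
      field_simp
      ring
    have h7 : 8 * M₀ * κ / (δ * √δ) = 2 * (4 * M₀ * κ / (δ * √δ)) := by ring
    rw [h7]
    linarith
  -- bound 2
  have hdev : ∀ (i : Fin (m + 1)) (c : ℤ), |((c : ℝ)) - (sgp p m i + u / 2)| ≤ κ ^ 2 * √t →
      CG (fun z => |(z i : ℝ) - c|) u (sgp p m) ≤ 2 * (κ * √t) := by
    intro i c hc
    have h1 := dev i (c : ℝ) (κ * √t) (by positivity) u (sgp p m)
    refine h1.trans ?_
    have h2 : ((sgp p m i : ℝ) + (u : ℝ) / 2 - c) ^ 2 ≤ κ ^ 2 * t := by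
      have h3 : ((sgp p m i : ℝ) + (u : ℝ) / 2 - c) ^ 2 = |((c : ℝ)) - (sgp p m i + u / 2)| ^ 2 := by
        rw [sq_abs]
        ring
      rw [h3]
      calc |((c : ℝ)) - (sgp p m i + u / 2)| ^ 2 ≤ (κ ^ 2 * √t) ^ 2 := pow_le_pow_left₀ (abs_nonneg _) hc 2
        _ = κ ^ 2 * (κ ^ 2 * t) := by rw [mul_pow, Real.sq_sqrt ht0.le]; ring
        _ ≤ 1 * (κ ^ 2 * t) := by
            apply mul_le_mul_of_nonneg_right _ (by positivity)
            nlinarith
        _ = κ ^ 2 * t := one_mul _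
    have h4 : (((sgp p m i : ℝ) + (u : ℝ) / 2 - c) ^ 2 + (u : ℝ) / 4) / (2 * (κ * √t)) ≤ κ * √t := by
      rw [div_le_iff₀ (by positivity)]
      have h5 : κ * √t * (2 * (κ * √(t : ℝ))) = 2 * (κ ^ 2 * t) := by
        calc κ * √t * (2 * (κ * √(t : ℝ))) = 2 * κ ^ 2 * (√(t : ℝ) * √t) := by ring
          _ = 2 * (κ ^ 2 * t) := by rw [hst2]; ring
      rw [h5]
      linarith
    have h6 : 0 ≤ κ * √t := by positivity
    linarith
  have b2 : 2 * P * (CG (fun z => |(z 0 : ℝ) - a 0|) u (sgp p m) +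
      CG (fun z => |(z (Fin.last m) : ℝ) - a (Fin.last k)|) u (sgp p m)) ≤ 16 * κ / (δ * √δ) := by
    have h1 := hdev 0 (a 0) (by
      have : (sgp p m 0 : ℝ) = p := by unfold sgp; simp
      rw [this]
      exact ha0)
    have h2 := hdev (Fin.last m) (a (Fin.last k)) (by
      have : (sgp p m (Fin.last m) : ℝ) = p + m := by unfold sgp; simp
      rw [this]
      exact hal)
    have h3 : 2 * P * (CG (fun z => |(z 0 : ℝ) - a 0|) u (sgp p m) +
      CG (fun z => |(z (Fin.last m) : ℝ) - a (Fin.last k)|) u (sgp p m)) ≤ 2 * P * (4 * (κ * √t)) :=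
      mul_le_mul_of_nonneg_left (by linarith) (by positivity)
    have h4 : 2 * P * (4 * (κ * √t)) = 8 * κ * (P * √t) := by ring
    have h5 : 8 * κ * (P * √t) ≤ 8 * κ * (2 / √δ) := mul_le_mul_of_nonneg_left hP1 (by positivity)
    have h6 : 8 * κ * (2 / √δ) ≤ 16 * κ / (δ * √δ) := by
      have h7 : 8 * κ * (2 / √δ) = 16 * κ / √δ := by ring
      rw [h7]
      apply div_le_div_of_nonneg_left (by positivity) hD
      nlinarith
    linarith
  -- bound 3
  have b3 : 2 * (P * (((a (Fin.last k) : ℝ) - a 0) * ((κ ^ 2 * √t) ^ 2 / r))) ≤ 8 * (M₀ + 1) * κ / (δ * √δ) := by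
    have h1 : (κ ^ 2 * √t) ^ 2 / r ≤ κ ^ 2 * (2 / δ) := by
      rw [div_le_iff₀ hr0, mul_pow, Real.sq_sqrt ht0.le]
      have h4 : κ ^ 2 * (2 / δ) * (δ / 2 * t) ≤ κ ^ 2 * (2 / δ) * r :=
        mul_le_mul_of_nonneg_left hr2 (by positivity)
      have h5 : κ ^ 2 * (2 / δ) * (δ / 2 * t) = κ ^ 2 * t := by field_simp
      have h6 : (κ ^ 2) ^ 2 * t ≤ κ ^ 2 * t := by
        apply mul_le_mul_of_nonneg_right _ ht0.le
        nlinarith [sq_nonneg κ]
      linarith
    have h2 : (a (Fin.last k) : ℝ) - a 0 ≤ (M₀ + 1) * √t := by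
      have e1 := (abs_le.1 ha0).1
      have e2 := (abs_le.1 hal).2
      have e3 : 2 * (κ ^ 2 * √(t : ℝ)) ≤ 1 * √t := by
        have : κ ^ 2 ≤ 1 / 4 := by nlinarith
        nlinarith
      nlinarith
    have h2' : 0 ≤ (a (Fin.last k) : ℝ) - a 0 := by
      have : a 0 ≤ a (Fin.last k) := ha (Fin.zero_le _)
      have : (a 0 : ℝ) ≤ a (Fin.last k) := by exact_mod_cast this
      linarith
    have h3 : ((a (Fin.last k) : ℝ) - a 0) * ((κ ^ 2 * √t) ^ 2 / r) ≤ ((M₀ + 1) * √t) * (κ ^ 2 * (2 / δ)) :=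
      mul_le_mul h2 h1 (by positivity) (by positivity)
    have h4 : P * (((a (Fin.last k) : ℝ) - a 0) * ((κ ^ 2 * √t) ^ 2 / r)) ≤ P * (((M₀ + 1) * √t) * (κ ^ 2 * (2 / δ))) :=
      mul_le_mul_of_nonneg_left h3 hP0
    have h5 : P * (((M₀ + 1) * √t) * (κ ^ 2 * (2 / δ))) = (M₀ + 1) * κ ^ 2 * (2 / δ) * (P * √t) := by ring
    have h6 : (M₀ + 1) * κ ^ 2 * (2 / δ) * (P * √t) ≤ (M₀ + 1) * κ * (2 / δ) * (2 / √δ) := by
      apply mul_le_mul _ hP1 (by positivity) (by positivity)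
      apply mul_le_mul_of_nonneg_right _ (by positivity)
      exact mul_le_mul_of_nonneg_left (by linarith) (by positivity)
    have h7 : (M₀ + 1) * κ * (2 / δ) * (2 / √δ) = 4 * (M₀ + 1) * κ / (δ * √δ) := by
      field_simp
      ring
    have h8 : 8 * (M₀ + 1) * κ / (δ * √δ) = 2 * (4 * (M₀ + 1) * κ / (δ * √δ)) := by ring
    rw [h8]
    linarith
  -- total
  have hfin : 8 * M₀ * κ / (δ * √δ) + 16 * κ / (δ * √δ) + 8 * (M₀ + 1) * κ / (δ * √δ) ≤ ε := by
    rw [← add_div, ← add_div, div_le_iff₀ hD]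
    rw [le_div_iff₀ (by positivity)] at hκ3
    nlinarith
  have t1 := abs_sub_le (cF F r (univ.image a)) (cF F r (Icc (a 0) (a (Fin.last k)))) (cF F (r + u) (Icc p (p + m)))
  have t2 := abs_sub_le (cF F r (Icc (a 0) (a (Fin.last k))))
    (CG (fun z => cF F r (Icc (z 0) (z (Fin.last m)))) u (sgp p m)) (cF F (r + u) (Icc p (p + m)))
  rw [abs_sub_comm (cF F (r + u) (Icc p (p + m)))] at c1
  rw [abs_sub_comm (CG (fun z => cF F r (Icc (z 0) (z (Fin.last m)))) u (sgp p m)) (cF F r (Icc (a 0) (a (Fin.last k))))] at c2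
  linarith

end Pool.Agent.Q95.BT
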